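import Pool.Agent.H852R2.DM.S.RETURN
import Pool.Agent.H852R2.DM.S.ZBOUND
import Pool.Agent.H852R2.DM.S.WNUM

/-!
Project DM, task COND (helper640).
-/

set_option autoImplicit false

namespace DM852
open RC14 RC852 Finset Filter Equiv

namespace COND

/-- `exc c u` commutes with `c` -/
theorem comm {n : ℕ} (c : Perm (Fin n)) (u : Perm {x // x ∉ c.support}) :
    c * exc c u = exc c u * c := by
  have hd : Perm.Disjoint c (exc c u) := by
    intro x
    by_cases hx : x ∈ c.support
    · right
      unfold exc
      rw [Perm.ofSubtype_apply_of_not_mem]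
      simpa using hx
    · left
      simpa using hx
  exact hd.commute

/-- a cycle of `u Θ` inside the support is a subset of the points whose `Θ`-orbit avoids `P` -/
theorem avoid {n : ℕ} (Θ : Perm (Fin n)) (P : Fin n → Prop) [DecidablePred P]
    (u : Perm {x // P x}) (p : Fin n)
    (h : ∀ q, (Perm.ofSubtype u * Θ).SameCycle p q → ¬ P q) (t : ℕ) :
    ((Perm.ofSubtype u * Θ) ^ t) p = (Θ ^ t) p := by
  induction t with
  | zero => rfl
  | succ t ih =>
    rw [pow_succ', pow_succ', Perm.mul_apply, Perm.mul_apply, Perm.mul_apply, ih]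
    by_cases hP : P (Θ ((Θ ^ t) p))
    · exfalso
      refine h (((Perm.ofSubtype u * Θ) ^ (t + 1)) p) ⟨(t + 1 : ℕ), by rw [zpow_natCast]⟩ ?_
      rw [pow_succ', Perm.mul_apply, Perm.mul_apply, ih, Perm.ofSubtype_apply_of_mem _ hP]
      exact (u _).2
    · rw [Perm.ofSubtype_apply_of_not_mem _ hP]

end COND

/-- conditionally on the long cycle `c` of `π`, the permutation `π T` has a long cycle with
probability at most `pW + small` -/
theorem COND (a : ℝ) (ha : 0 < a) (ha1 : a ≤ 1 / 4) : ∃ C : ℝ, 0 < C ∧ ∀ᶠ n : ℕ in atTop,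
    ∀ (H : ℕ) (T c : Perm (Fin n)), c.IsCycle → InW a n c.support.card →
      (Nat.card {u : Perm {x // x ∉ c.support} // Perm.sign u = Perm.sign c ∧
          LC a (c * exc c u * T)} : ℝ) ≤
        (pW a n + C * ((ZH H c T) ^ (1 / 3 : ℝ) + ZH H c T + 1 / n)) *
          Nat.card {u : Perm {x // x ∉ c.support} // Perm.sign u = Perm.sign c} := by
  classical
  obtain ⟨C₁, hC₁, hW⟩ := WNUM a ha ha1
  refine ⟨max C₁ 2, by positivity, ?_⟩
  filter_upwards [hW, eventually_ge_atTop 1] with n hn hn1 H T c hc hcW
  have hn0 : (0 : ℝ) < n := by exact_mod_cast hn1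
  set P : Fin n → Prop := fun x => x ∉ c.support with hP
  set Θ : Perm (Fin n) := c * T with hΘ
  obtain ⟨N, ω, hω, hsum0, horb0, hav⟩ := RETURN Θ P
  have hsum : ∑ d : {x // x ∉ c.support}, ω d = #{p : Fin n | ∃ t : ℕ, P ((Θ ^ t) p)} := by
    convert hsum0
  have horb : ∀ (u : Perm {x // x ∉ c.support}) (d : {x // x ∉ c.support}),
      #{p : Fin n | (Perm.ofSubtype u * Θ).SameCycle (d : Fin n) p} =
          ∑ d' : {x // x ∉ c.support} with (u * N).SameCycle d d', ω d' := by
    intro u d
    convert horb0 u d
  have hZ := ZBOUND hn1 H c T ω (fun d => ⟨(hω d).1, rfl, by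
      have := (hω d).2.1
      rw [← hΘ, this]; exact (N d).2, fun t h1 h2 => by
      have := (hω d).2.2 t h1 h2
      simp only [hP, not_not] at this
      exact this⟩) (by convert hsum)
  obtain ⟨hZ1, hZ2⟩ := hZ
  have hZ0 : 0 ≤ ZH H c T := by unfold ZH; positivity
  have hpW : 0 ≤ pW a n := by
    unfold pW
    exact sum_nonneg fun _ _ => by positivity
  have hmono : (Nat.card {u : Perm {x // x ∉ c.support} // Perm.sign u = Perm.sign c ∧
          LC a (c * exc c u * T)} : ℝ) ≤
          Nat.card {u : Perm {x // x ∉ c.support} // Perm.sign u = Perm.sign c} := by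
    exact_mod_cast Nat.card_le_card_of_injective
      (fun u : {u : Perm {x // x ∉ c.support} // Perm.sign u = Perm.sign c ∧
          LC a (c * exc c u * T)} => (⟨u.1, u.2.1⟩ : {u : Perm {x // x ∉ c.support} //
            Perm.sign u = Perm.sign c})) (fun u v h => by
              apply Subtype.ext
              exact congrArg (fun w => w.1) h)
  have hcard0 : (0 : ℝ) ≤ Nat.card {u : Perm {x // x ∉ c.support} // Perm.sign u = Perm.sign c} := by
    positivity
  have hrp : 0 ≤ (ZH H c T) ^ (1 / 3 : ℝ) := Real.rpow_nonneg hZ0 _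
  rcases le_or_gt (3 / 4 : ℝ) (ZH H c T) with hbig | hsmall
  · refine hmono.trans ?_
    have h1 : (1 : ℝ) ≤ pW a n + max C₁ 2 * ((ZH H c T) ^ (1 / 3 : ℝ) + ZH H c T + 1 / n) := by
      have h2 : (2 : ℝ) ≤ max C₁ 2 := le_max_right _ _
      have h3 : (3 / 4 : ℝ) ≤ (ZH H c T) ^ (1 / 3 : ℝ) + ZH H c T + 1 / n := by
        have : (0 : ℝ) ≤ 1 / n := by positivity
        linarith
      nlinarith
    nlinarith
  · have hcD : (Fintype.card {x // x ∉ c.support} : ℝ) = n - c.support.card := by
      have h1 : Fintype.card {x // x ∉ c.support} = n - c.support.card := by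
        rw [Fintype.card_subtype_compl (fun x => x ∈ c.support), Fintype.card_fin,
          Fintype.card_coe]
      rw [h1, Nat.cast_sub]
      simpa using card_le_univ c.support
    obtain ⟨hw1, hw2⟩ := hcW
    have hsumn : ∑ d : {x // x ∉ c.support}, (ω d : ℝ) ≤ n := by
      have : ∑ d : {x // x ∉ c.support}, ω d ≤ n := by
        rw [hsum]
        exact (card_le_univ _).trans (by simp)
      exact_mod_cast this
    have hWn0 := hn {x // x ∉ c.support} ω (Perm.sign c * Perm.sign N) (ZH H c T) hZ0
      (by rw [hcD]; linarith) (by rw [hcD]; linarith) hsumn hZ2 hZ1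
    have hWn : (Nat.card {ψ : Perm {x // x ∉ c.support} //
        Perm.sign ψ = Perm.sign c * Perm.sign N ∧
          ∃ d, InW a n (∑ d' with ψ.SameCycle d d', ω d')} : ℝ) ≤
        (pW a n + C₁ * ((ZH H c T) ^ (1 / 3 : ℝ) + (ZH H c T) + 1 / n)) *
          Nat.card {ψ : Perm {x // x ∉ c.support} // Perm.sign ψ =
            Perm.sign c * Perm.sign N} := by
      convert hWn0
    -- bijection
    have hbij : Nat.card {ψ : Perm {x // x ∉ c.support} // Perm.sign ψ =
        Perm.sign c * Perm.sign N} =
        Nat.card {u : Perm {x // x ∉ c.support} // Perm.sign u = Perm.sign c} := by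
      refine (Nat.card_congr (Equiv.subtypeEquiv (Equiv.mulRight N) fun u => ?_)).symm
      simp only [Equiv.coe_mulRight, Perm.sign_mul]
      exact ⟨fun h => by rw [h], fun h => mul_right_cancel h⟩
    have hinj : Nat.card {u : Perm {x // x ∉ c.support} // Perm.sign u = Perm.sign c ∧
          LC a (c * exc c u * T)} ≤
        Nat.card {ψ : Perm {x // x ∉ c.support} // Perm.sign ψ = Perm.sign c * Perm.sign N ∧
          ∃ d, InW a n (∑ d' with ψ.SameCycle d d', ω d')} := by
      refine Nat.card_le_card_of_injective (fun u => ⟨u.1 * N, ?_, ?_⟩) ?_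
      · rw [Perm.sign_mul, u.2.1]
      · obtain ⟨u, hu1, hu2⟩ := u
        rw [COND.comm, mul_assoc, ← hΘ] at hu2
        obtain ⟨c', hc', hc'W⟩ := hu2
        change InW a n c'.support.card at hc'W
        simp only
        obtain ⟨p, hp⟩ : ∃ p, p ∈ c'.support := by
          have := (Perm.mem_cycleFactorsFinset_iff.1 hc').1
          obtain ⟨p, hp, _⟩ := this
          exact ⟨p, by simpa using hp⟩
        have hc'p : c' = (exc c u * Θ).cycleOf p := Perm.cycle_is_cycleOf hp hc'
        have hpm : p ∈ (exc c u * Θ).support :=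
          Perm.mem_cycleFactorsFinset_support_le hc' hp
        have hsupp : ∀ q, q ∈ c'.support ↔ (exc c u * Θ).SameCycle p q := by
          intro q
          rw [hc'p, Perm.mem_support_cycleOf_iff]
          exact ⟨fun h => h.1, fun h => ⟨h, hpm⟩⟩
        by_cases hex : ∃ q, (exc c u * Θ).SameCycle p q ∧ P q
        · obtain ⟨q, hq, hPq⟩ := hex
          refine ⟨⟨q, hPq⟩, ?_⟩
          have h1 := horb u ⟨q, hPq⟩
          have h2 : c'.support.card = ∑ d' : {x // x ∉ c.support} with (u * N).SameCycle (⟨q, hPq⟩ : {x // x ∉ c.support}) d', ω d' := by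
            rw [← h1]
            congr 1
            ext r
            rw [hsupp]
            simp only [mem_filter, mem_univ, true_and]
            exact ⟨fun h => hq.symm.trans h, fun h => hq.trans h⟩
          rw [← h2]
          exact hc'W
        · exfalso
          push Not at hex
          have hsub : c'.support ⊆ ({p : Fin n | ∃ t : ℕ, P ((Θ ^ t) p)} : Finset (Fin n))ᶜ := by
            intro q hq
            rw [mem_compl, mem_filter]
            rintro ⟨_, t, ht⟩
            rw [hsupp] at hq
            have h1 := COND.avoid Θ P u q (fun r hr => hex r (hq.trans hr)) t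
            rw [← h1] at ht
            refine hex _ (hq.trans ⟨t, ?_⟩) ht
            rw [zpow_natCast]
            rfl
          have h1 := card_le_card hsub
          rw [Finset.card_compl, Fintype.card_fin, ← hsum] at h1
          have h2 : (c'.support.card : ℝ) ≤ n - ∑ d : {x // x ∉ c.support}, (ω d : ℝ) := by
            have h3 : ∑ d : {x // x ∉ c.support}, ω d ≤ n := by exact_mod_cast hsumn
            have h4 : (c'.support.card : ℝ) ≤ ((n - ∑ d : {x // x ∉ c.support}, ω d : ℕ) : ℝ) := by
              exact_mod_cast h1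
            rw [Nat.cast_sub h3] at h4
            push_cast at h4
            exact h4
          have h3 := hc'W.1
          nlinarith
      · intro u v h
        apply Subtype.ext
        have := congrArg (fun w => w.1) h
        exact mul_right_cancel this
    calc (Nat.card {u : Perm {x // x ∉ c.support} // Perm.sign u = Perm.sign c ∧
          LC a (c * exc c u * T)} : ℝ)
        ≤ Nat.card {ψ : Perm {x // x ∉ c.support} // Perm.sign ψ = Perm.sign c * Perm.sign N ∧
          ∃ d, InW a n (∑ d' with ψ.SameCycle d d', ω d')} := by exact_mod_cast hinj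
      _ ≤ _ := hWn
      _ ≤ _ := by
          rw [hbij]
          have h2 : C₁ ≤ max C₁ 2 := le_max_left _ _
          have h3 : (0 : ℝ) ≤ (ZH H c T) ^ (1 / 3 : ℝ) + ZH H c T + 1 / n := by positivity
          gcongr

end DM852
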